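import Pool.Agent.Work.MP_e487d8_al.Cry.Kr
import Pool.Agent.Work.MP_e487d8_al.Conv.Fin

/-! MP_e487d8_al, block CRY: the basis of `L(i) ∘ Y` and the space `Kr i 1 (L(i) ∘ Y)`. -/

set_option autoImplicit false

open scoped TensorProduct

namespace Pool.Agent.KLR

variable {K I : Type} [Field K] [Fintype I] [DecidableEq I]

/-- `t (p - 1) * ... * t 1 * t 0`: moves the strand number `0` to the position `p` -/
noncomputable def Datum.lc (D : Datum K I) : ℕ → KLRAlg D
  | 0 => 1
  | p + 1 => D.shn 1 (D.lc p) * D.t 0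

/-- the shuffle moving the only strand of the first factor to the position `p` -/
def shw (n p : ℕ) (h : p ≤ n) : Shf 1 n :=
  ⟨List.replicate p true ++ false :: List.replicate (n - p) true, by
    rw [List.count_append, List.count_append, List.count_cons_self,
      List.count_cons_of_ne (by decide)]
    simp only [List.count_replicate_self, List.count_replicate]
    constructor
    · simp
    · omega⟩

theorem Datum.tw_shw (D : Datum K I) (n p : ℕ) (h : p ≤ n) : D.tw (shw n p h).1 = D.lc p := by
  have h0 : ∀ q, (List.replicate q true).count false = 0 := by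
    intro q; simp [List.count_replicate]
  have hr : ∀ q, D.tw (List.replicate q true) = 1 := by
    intro q
    have := D.tw_append_true [] q
    rwa [List.nil_append] at this
  change D.tw (List.replicate p true ++ false :: List.replicate (n - p) true) = D.lc p
  generalize n - p = q
  induction p with
  | zero =>
    rw [List.replicate_zero, List.nil_append, Datum.tw, hr, map_one]
    rfl
  | succ p ih =>
    rw [List.replicate_succ, List.cons_append, Datum.tw, ih (by omega), Datum.lc,
      List.count_append, List.count_cons_self, h0, h0]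
    simp [Datum.chain]

theorem shw_surj (n : ℕ) (w : Shf 1 n) : ∃ p, ∃ h : p ≤ n, w = shw n p h := by
  obtain ⟨w, hw⟩ := w
  have key : ∀ (w : List Bool) (n : ℕ), w.count false = 1 → w.count true = n →
      ∃ p ≤ n, w = List.replicate p true ++ false :: List.replicate (n - p) true := by
    intro w
    induction w with
    | nil => intro n h1; simp at h1
    | cons b w ih =>
      intro n h1 h2
      cases b with
      | false =>
        rw [List.count_cons_self] at h1
        rw [List.count_cons_of_ne (by decide)] at h2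
        refine ⟨0, Nat.zero_le _, ?_⟩
        rw [List.replicate_zero, List.nil_append, Nat.sub_zero]
        congr 1
        rw [List.eq_replicate_iff]
        have h3 : w.count false = 0 := by omega
        have h4 := length_eq_count w
        refine ⟨by omega, ?_⟩
        intro b hb
        cases b with
        | true => rfl
        | false => exact absurd hb (List.count_eq_zero.1 h3)
      | true =>
        rw [List.count_cons_of_ne (by decide)] at h1
        rw [List.count_cons_self] at h2
        obtain ⟨p, hp, h3⟩ := ih (n - 1) h1 (by omega)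
        refine ⟨p + 1, by omega, ?_⟩
        rw [h3, List.replicate_succ, List.cons_append]
        congr 4
        omega
  obtain ⟨p, hp, h3⟩ := key w n hw.1 hw.2
  exact ⟨p, hp, Subtype.ext h3⟩

theorem shw_inj {n p q : ℕ} (hp : p ≤ n) (hq : q ≤ n) (h : shw n p hp = shw n q hq) : p = q := by
  have h1 := congrArg Subtype.val h
  change List.replicate p true ++ false :: List.replicate (n - p) true =
    List.replicate q true ++ false :: List.replicate (n - q) true at h1
  have key : ∀ (p q : ℕ) (u v : List Bool),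
      List.replicate p true ++ false :: u = List.replicate q true ++ false :: v → p = q := by
    intro p
    induction p with
    | zero =>
      intro q u v h
      cases q with
      | zero => rfl
      | succ q =>
        rw [List.replicate_zero, List.nil_append, List.replicate_succ, List.cons_append] at h
        simp at h
    | succ p ih =>
      intro q u v h
      cases q with
      | zero =>
        rw [List.replicate_zero, List.nil_append, List.replicate_succ, List.cons_append] at h
        simp at h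
      | succ q =>
        rw [List.replicate_succ, List.replicate_succ, List.cons_append, List.cons_append,
          List.cons.injEq] at h
        rw [ih q u v h.2]
  exact key _ _ _ _ h1

section

variable {D : Datum K I} {i : I} {n : ℕ} {Y : Type} [AddCommGroup Y] [Module K Y]
  [Module (KLRAlg D) Y] [IsScalarTower K (KLRAlg D) Y]

/-- `mk one y` in `L(i) ∘ Y` -/
noncomputable def lk (D : Datum K I) (i : I) (Y : Type) [AddCommGroup Y] [Module K Y]
    [Module (KLRAlg D) Y] : Y →ₗ[K] Conv D 1 (Lt D i) Y := Conv.mk D 1 (Lt D i) Y (Lt.one D i)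

omit [IsScalarTower K (KLRAlg D) Y] in
theorem mk_eq_lk (u : Lt D i) (y : Y) : ∃ c : K, u = c • Lt.one D i ∧
    Conv.mk D 1 (Lt D i) Y u y = c • lk D i Y y := by
  obtain ⟨c, hc⟩ := Lt.exists_eq D i u
  refine ⟨c, hc, ?_⟩
  rw [hc, map_smul, LinearMap.smul_apply]
  rfl

omit [IsScalarTower K (KLRAlg D) Y] in
theorem shn_smul_lk (b : KLRAlg D) (y : Y) : D.shn 1 b • lk D i Y y = lk D i Y (b • y) :=
  Conv.shn_smul_mk b _ _

omit [IsScalarTower K (KLRAlg D) Y] in
theorem e_smul_lk (y : Y) : D.e 0 i • lk D i Y y = lk D i Y y := by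
  have h := Conv.tr_smul_mk (D := D) (m := 1) (D.e 0 i) (Lt.one D i) y
  rwa [D.tr_e, if_pos (by omega), Lt.e_smul] at h

omit [IsScalarTower K (KLRAlg D) Y] in
theorem e_smul_lk_ne {j : I} (hj : j ≠ i) (y : Y) : D.e 0 j • lk D i Y y = 0 := by
  have h := Conv.tr_smul_mk (D := D) (m := 1) (D.e 0 j) (Lt.one D i) y
  rwa [D.tr_e, if_pos (by omega), Lt.e_smul_ne D i hj, map_zero, LinearMap.zero_apply] at h

omit [IsScalarTower K (KLRAlg D) Y] in
theorem x_smul_lk (y : Y) : D.x 0 • lk D i Y y = 0 := by
  have h := Conv.tr_smul_mk (D := D) (m := 1) (D.x 0) (Lt.one D i) y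
  rwa [D.tr_x, if_pos (by omega), Lt.x_smul, map_zero, LinearMap.zero_apply] at h

omit [IsScalarTower K (KLRAlg D) Y] in
theorem dl_smul_lk (y : Y) : D.dl 0 • lk D i Y y = lk D i Y (D.e 0 i • y) := by
  unfold Datum.dl
  rw [Finset.sum_smul, Finset.sum_eq_single i]
  · rw [D.e_comm, mul_smul, e_smul_lk, ← shn_smul_lk, D.shn_e]
  · intro j _ hj
    rw [D.e_comm, mul_smul, e_smul_lk_ne hj, smul_zero]
  · intro h
    exact absurd (Finset.mem_univ i) h

theorem lk_injective (hb : S_basis D) (hY : IsStrand D n Y) : Function.Injective (lk D i Y) := by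
  rw [← LinearMap.ker_eq_bot, LinearMap.ker_eq_bot']
  intro y hy
  exact (Conv.mk_eq_zero hb (Lt.isStrand D i) hY hy).resolve_left (Lt.one_ne_zero D i)

/-- spanning -/
theorem exists_sum_lc (hb : S_basis D) (hY : IsStrand D n Y) (z : Conv D 1 (Lt D i) Y) :
    ∃ y : ℕ → Y, z = ∑ p ∈ Finset.range (n + 1), D.lc p • lk D i Y (y p) := by
  obtain ⟨f, rfl⟩ := (hb 1 n (Lt D i) Y (Lt.isStrand D i) hY).2 z
  induction f using Finsupp.induction_linear with
  | zero => exact ⟨0, by simp⟩
  | add f g hf hg =>
    obtain ⟨y, hy⟩ := hf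
    obtain ⟨y', hy'⟩ := hg
    refine ⟨y + y', ?_⟩
    rw [map_add, hy, hy', ← Finset.sum_add_distrib]
    refine Finset.sum_congr rfl fun p _ => ?_
    rw [Pi.add_apply, map_add, smul_add]
  | single w t =>
    obtain ⟨p, hp, rfl⟩ := shw_surj n w
    induction t using TensorProduct.induction_on with
    | zero => exact ⟨0, by simp⟩
    | add t t' ht ht' =>
      obtain ⟨y, hy⟩ := ht
      obtain ⟨y', hy'⟩ := ht'
      refine ⟨y + y', ?_⟩
      rw [Finsupp.single_add, map_add, hy, hy', ← Finset.sum_add_distrib]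
      refine Finset.sum_congr rfl fun p _ => ?_
      rw [Pi.add_apply, map_add, smul_add]
    | tmul u v =>
      obtain ⟨c, -, hc⟩ := mk_eq_lk u v
      refine ⟨fun q => if q = p then c • v else 0, ?_⟩
      rw [convSum_single, D.tw_shw, hc, Finset.sum_eq_single p]
      · simp only [if_true, map_smul]
      · intro q _ hq
        simp only [hq, if_false, map_zero, smul_zero]
      · intro h
        exact absurd (Finset.mem_range.2 (by omega)) h

/-- independence -/
theorem lc_indep (hb : S_basis D) (hY : IsStrand D n Y) (y : ℕ → Y)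
    (h : ∑ p ∈ Finset.range (n + 1), D.lc p • lk D i Y (y p) = 0) : ∀ p ≤ n, y p = 0 := by
  classical
  have h1 : convSum D 1 n (Lt D i) Y (∑ p ∈ (Finset.range (n + 1)).attach,
      Finsupp.single (shw n p.1 (by have := Finset.mem_range.1 p.2; omega))
        (Lt.one D i ⊗ₜ[K] y p.1)) = 0 := by
    rw [map_sum, ← h, ← Finset.sum_attach (Finset.range (n + 1))]
    refine Finset.sum_congr rfl fun p _ => ?_
    rw [convSum_single, D.tw_shw]
    rfl
  have h2 := (hb 1 n (Lt D i) Y (Lt.isStrand D i) hY).1 (h1.trans (map_zero _).symm)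
  intro p hp
  have h3 := DFunLike.congr_fun h2 (shw n p hp)
  rw [Finsupp.finsetSum_apply, Finset.sum_eq_single ⟨p, Finset.mem_range.2 (by omega)⟩] at h3
  · rw [Finsupp.single_eq_same, Finsupp.zero_apply] at h3
    have h4 := congrArg (TensorProduct.lid K Y ∘
      ((Lt.of D i).symm.toLinearMap.rTensor Y)) h3
    simp only [Function.comp_apply, LinearMap.rTensor_tmul, LinearEquiv.coe_coe,
      TensorProduct.lid_tmul, map_zero] at h4
    have h5 : (Lt.of D i).symm (Lt.one D i) = 1 := (Lt.of D i).symm_apply_apply 1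
    rwa [h5, one_smul] at h4
  · intro q _ hq
    rw [Finsupp.single_eq_of_ne]
    intro h4
    exact hq (Subtype.ext (shw_inj _ _ h4.symm))
  · intro h4
    exact absurd (Finset.mem_attach _ _) h4

theorem lc_unique (hb : S_basis D) (hY : IsStrand D n Y) (y y' : ℕ → Y)
    (h : ∑ p ∈ Finset.range (n + 1), D.lc p • lk D i Y (y p) =
      ∑ p ∈ Finset.range (n + 1), D.lc p • lk D i Y (y' p)) : ∀ p ≤ n, y p = y' p := by
  intro p hp
  rw [← sub_eq_zero]
  refine lc_indep (i := i) hb hY (fun p => y p - y' p) ?_ p hp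
  rw [← sub_eq_zero, ← Finset.sum_sub_distrib] at h
  rw [← h]
  refine Finset.sum_congr rfl fun p _ => ?_
  rw [map_sub, smul_sub]

omit [IsScalarTower K (KLRAlg D) Y] in
theorem e_lc_lk (p : ℕ) (y : Y) :
    D.e 0 i • D.lc (p + 1) • lk D i Y y = D.lc (p + 1) • lk D i Y (D.e 0 i • y) := by
  have h1 := D.tr_mul_shn (le_refl 1) (D.e 0 i) (D.lc p)
  rw [D.tr_e, if_pos (by omega)] at h1
  rw [← shn_smul_lk, D.shn_e, Datum.lc, mul_smul, mul_smul, ← mul_smul (D.e 0 i), h1, mul_smul,
    ← mul_smul (D.e 0 i), ← D.t_e1, mul_smul]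

omit [IsScalarTower K (KLRAlg D) Y] in
theorem x_lc_lk (p : ℕ) (y : Y) (hy : D.e 0 i • y = y) :
    D.x 0 • D.lc (p + 1) • lk D i Y y =
      D.lc (p + 1) • lk D i Y (D.x 0 • y) - lk D i Y (D.lc p • y) := by
  have h1 := D.tr_mul_shn (le_refl 1) (D.x 0) (D.lc p)
  rw [D.tr_x, if_pos (by omega)] at h1
  have h2 : D.x 0 * D.t 0 = D.t 0 * D.x 1 - D.dl 0 := by
    rw [show (1 : ℕ) = 0 + 1 by rfl, D.t_x1]
    abel
  rw [← shn_smul_lk, ← shn_smul_lk, D.shn_x, Datum.lc, mul_smul, mul_smul, ← mul_smul (D.x 0), h1,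
    mul_smul, ← mul_smul (D.x 0), h2, sub_smul, smul_sub, mul_smul, dl_smul_lk, hy]

/-- the counit `L(i) ∘ Kr_i Y → Y` is injective -/
def CouInj (D : Datum K I) (i : I) (n : ℕ) (Y : Type) [AddCommGroup Y]
    [Module (KLRAlg D) Y] : Prop :=
  ∀ y : ℕ → Y, (∀ p, IsKr D i 1 (y p)) → ∑ p ∈ Finset.range n, D.lc p • y p = 0 →
    ∀ p < n, y p = 0

/-- if the counit is injective for `Y` then `Kr_i (L(i) ∘ Y) = Y` -/
theorem exists_lk (hb : S_basis D) (hY : IsStrand D n Y) (hc : CouInj D i n Y)
    (z : Conv D 1 (Lt D i) Y) (hz : IsKr D i 1 z) : ∃ y, z = lk D i Y y := by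
  obtain ⟨y, rfl⟩ := exists_sum_lc hb hY z
  obtain ⟨h1, h2⟩ := hz 0 (by omega)
  have h3 : ∑ p ∈ Finset.range (n + 1), D.lc p • lk D i Y (if p = 0 then y p else D.e 0 i • y p) =
      ∑ p ∈ Finset.range (n + 1), D.lc p • lk D i Y (y p) := by
    conv_rhs => rw [← h1, Finset.smul_sum]
    refine Finset.sum_congr rfl fun p _ => ?_
    cases p with
    | zero => rw [if_pos rfl, Datum.lc, one_smul, e_smul_lk]
    | succ p => rw [if_neg (by omega), e_lc_lk]
  have h4 : ∀ p < n, D.e 0 i • y (p + 1) = y (p + 1) := by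
    intro p hp
    have h5 := lc_unique hb hY _ _ h3 (p + 1) (by omega)
    rwa [if_neg (by omega)] at h5
  have h5 : ∑ p ∈ Finset.range (n + 1), D.lc p • lk D i Y
      (if p = 0 then - ∑ q ∈ Finset.range n, D.lc q • y (q + 1) else D.x 0 • y p) = 0 := by
    rw [← h2, Finset.smul_sum, Finset.sum_range_succ', Finset.sum_range_succ']
    rw [if_pos rfl, Datum.lc, one_smul, one_smul, x_smul_lk, add_zero, map_neg, map_sum,
      ← sub_eq_add_neg, ← Finset.sum_sub_distrib]
    refine Finset.sum_congr rfl fun p hp => ?_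
    rw [if_neg (by omega), x_lc_lk _ _ (h4 p (Finset.mem_range.1 hp))]
  have h6 := lc_indep hb hY _ h5
  have h7 : ∀ p < n, D.x 0 • y (p + 1) = 0 := by
    intro p hp
    have h8 := h6 (p + 1) (by omega)
    rwa [if_neg (by omega)] at h8
  have h8 : ∑ q ∈ Finset.range n, D.lc q • y (q + 1) = 0 := by
    have h9 := h6 0 (by omega)
    rwa [if_pos rfl, neg_eq_zero] at h9
  have h9 : ∀ p < n, y (p + 1) = 0 := by
    have h10 := hc (fun p => if p < n then y (p + 1) else 0) ?_ ?_
    · intro p hp
      have h11 := h10 p hp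
      simpa [hp] using h11
    · intro p
      by_cases hp : p < n
      · simp only [hp, if_true]
        intro k hk
        have hk' : k = 0 := by omega
        subst hk'
        exact ⟨h4 p hp, h7 p hp⟩
      · simp only [hp, if_false]
        exact isKr_zero
    · rw [← h8]
      refine Finset.sum_congr rfl fun p hp => ?_
      rw [if_pos (Finset.mem_range.1 hp)]
  refine ⟨y 0, ?_⟩
  rw [Finset.sum_range_succ', Finset.sum_eq_zero, zero_add, Datum.lc, one_smul]
  intro p hp
  rw [h9 p (Finset.mem_range.1 hp), map_zero, smul_zero]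

/-- the counit for `L(i) ∘ Y` -/
theorem couInj_conv (hb : S_basis D) (hY : IsStrand D n Y) (hc : CouInj D i n Y) :
    CouInj D i (n + 1) (Conv D 1 (Lt D i) Y) := by
  intro z hz h p hp
  choose y hy using fun p => exists_lk hb hY hc (z p) (hz p)
  simp only [hy] at h ⊢
  rw [lc_indep hb hY y h p (by omega), map_zero]

omit [IsScalarTower K (KLRAlg D) Y] in
theorem isKr_lk {a : ℕ} {y : Y} (hy : IsKr D i a y) : IsKr D i (1 + a) (lk D i Y y) := by
  intro k hk
  by_cases h : k = 0
  · subst h
    exact ⟨e_smul_lk y, x_smul_lk y⟩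
  · obtain ⟨k, rfl⟩ : ∃ l, k = 1 + l := ⟨k - 1, by omega⟩
    rw [← D.shn_e, ← D.shn_x, shn_smul_lk, shn_smul_lk, (hy k (by omega)).1, (hy k (by omega)).2,
      map_zero]
    exact ⟨rfl, rfl⟩

theorem isKr_of_lk (hb : S_basis D) (hY : IsStrand D n Y) {a : ℕ} {y : Y}
    (hy : IsKr D i (1 + a) (lk D i Y y)) : IsKr D i a y := by
  intro k hk
  obtain ⟨h1, h2⟩ := hy (1 + k) (by omega)
  rw [← D.shn_e, shn_smul_lk] at h1
  rw [← D.shn_x, shn_smul_lk] at h2
  exact ⟨lk_injective hb hY h1, lk_injective hb hY (h2.trans (map_zero _).symm)⟩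

end

end Pool.Agent.KLR
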