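import Pool.Agent.Work.MP_e487d8_al.Cry.Main
import Pool.Agent.Work.MP_e487d8_al.Fin.Need

/-! MP_e487d8_al, block CRY: the contract `CFacts`, endomorphisms of simple modules. -/

set_option autoImplicit false

open scoped TensorProduct
open Pool.Agent.E487.Hopf

namespace Pool.Agent.KLR

variable {K I : Type} [Field K] [Fintype I] [DecidableEq I]

section

variable {D : Datum K I} {i : I} {a n N : ℕ} {M X P H Z : Type}
  [AddCommGroup M] [Module K M] [Module (KLRAlg D) M] [IsScalarTower K (KLRAlg D) M]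
  [AddCommGroup X] [Module K X] [Module (KLRAlg D) X] [IsScalarTower K (KLRAlg D) X]
  [AddCommGroup P] [Module K P] [Module (KLRAlg D) P] [IsScalarTower K (KLRAlg D) P]
  [AddCommGroup H] [Module K H] [Module (KLRAlg D) H] [IsScalarTower K (KLRAlg D) H]
  [AddCommGroup Z] [Module K Z] [Module (KLRAlg D) Z] [IsScalarTower K (KLRAlg D) Z]

omit [Module K M] [IsScalarTower K (KLRAlg D) M] in
theorem strand_unique [Nontrivial M] (h : IsStrand D n M) (h' : IsStrand D N M) : n = N := by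
  obtain ⟨u, hu⟩ := exists_ne (0 : M)
  rcases lt_trichotomy n N with h1 | h1 | h1
  · exfalso
    have h2 := h'.one n h1 u
    rw [h.E_smul_zero le_rfl] at h2
    exact hu h2.symm
  · exact h1
  · exfalso
    have h2 := h.one N h1 u
    rw [h'.E_smul_zero le_rfl] at h2
    exact hu h2.symm

/-- every proper submodule of `P_a X` is contained in the kernel of a simple quotient -/
theorem IsInd.le_ker {j : X →ₗ[K] P} (h : IsInd D i a n X P j) [IsSimpleModule (KLRAlg D) X]
    [IsSimpleModule (KLRAlg D) H] (g : P →ₗ[KLRAlg D] H) (hg : Function.Surjective g)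
    (U : Submodule (KLRAlg D) P) (hU : U ≠ ⊤) : U ≤ LinearMap.ker g := by
  have : Nontrivial H := IsSimpleModule.nontrivial (KLRAlg D) H
  have hX : Nontrivial X := IsSimpleModule.nontrivial (KLRAlg D) X
  have hc : IsCoatom (LinearMap.ker g) := by
    rw [← isSimpleModule_iff_isCoatom]
    exact IsSimpleModule.congr (g.quotKerEquivOfSurjective hg)
  by_contra hle
  have h2 : LinearMap.ker g ⊔ U = ⊤ := by
    apply hc.2
    rw [left_lt_sup]
    exact hle
  obtain ⟨x, hx⟩ := exists_ne (0 : X)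
  have h3 : j x ∈ LinearMap.ker g ⊔ U := by rw [h2]; trivial
  obtain ⟨u, hu, v, hv, huv⟩ := Submodule.mem_sup.1 h3
  have h4 : ew D i a • u = 0 := by
    apply h.inj_ew g hg (isEw_ew u)
    rw [map_smul, LinearMap.mem_ker.1 hu, smul_zero]
  have h5 : ew D i a • v = 0 := by
    by_contra h5
    exact hU (h.eq_top U (U.smul_mem _ hv) h5 (isEw_ew v))
  have h6 : j x = 0 := by
    rw [← (h.kr x).isEw.ew_smul, ← huv, smul_add, h4, h5, add_zero]
  exact hx (h.inj (h6.trans (map_zero j).symm))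

/-- every proper submodule of a quotient of `P_a X` is contained in the kernel of a simple
quotient -/
theorem IsInd.le_ker' {j : X →ₗ[K] P} (h : IsInd D i a n X P j) [IsSimpleModule (KLRAlg D) X]
    [IsSimpleModule (KLRAlg D) H] (q : P →ₗ[KLRAlg D] Z) (hq : Function.Surjective q)
    (g : Z →ₗ[KLRAlg D] H) (hg : Function.Surjective g)
    (U : Submodule (KLRAlg D) Z) (hU : U ≠ ⊤) : U ≤ LinearMap.ker g := by
  intro u hu
  obtain ⟨p, rfl⟩ := hq u
  have h1 := h.le_ker (g.comp q) (hg.comp hq) (U.comap q) (fun h2 => hU (by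
    rw [eq_top_iff]
    intro z _
    obtain ⟨p, rfl⟩ := hq z
    have h3 : p ∈ U.comap q := by rw [h2]; trivial
    exact h3))
  exact h1 (show p ∈ U.comap q from hu)

/-! ### `L(i^a) ∘ Y` for `Y` simple -/

/-- `L(i^a) ∘ Y` is generated by `Kr i (ε_i Y) Y` -/
theorem isGen_conv {L : SMod D} {v : L.M} (hL : IsLp D i a L v) (hM : Smp D N M) :
    IsGen D i (a + eps D i M) (Kr D i (eps D i M) M) (Conv D L.n L.M M)
      ((Conv.mk D L.n L.M M v).comp (Kr.valₗ D i (eps D i M) M)) where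
  bal b x := by
    rw [LinearMap.comp_apply, LinearMap.comp_apply, ← D.shn_shn, ← hL.n_eq, Conv.shn_smul_mk]
    rfl
  kr x k hk := by
    rw [LinearMap.comp_apply]
    by_cases h : k < a
    · have h1 := Conv.tr_smul_mk (D := D) (m := L.n) (D.e k i) v (Kr.valₗ D i (eps D i M) M x)
      have h2 := Conv.tr_smul_mk (D := D) (m := L.n) (D.x k) v (Kr.valₗ D i (eps D i M) M x)
      rw [D.tr_e, if_pos (by rw [hL.n_eq]; exact h), (hL.kr k h).1] at h1
      rw [D.tr_x, if_pos (by rw [hL.n_eq]; exact h), (hL.kr k h).2, map_zero,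
        LinearMap.zero_apply] at h2
      exact ⟨h1, h2⟩
    · have hk' : k = L.n + (k - a) := by rw [hL.n_eq]; omega
      have h3 := Kr.val_isKr x (k - a) (by omega)
      rw [hk', ← D.shn_e, ← D.shn_x, Conv.shn_smul_mk, Conv.shn_smul_mk]
      have h4 : D.e (k - a) i • (Kr.valₗ D i (eps D i M) M x) = Kr.valₗ D i (eps D i M) M x := h3.1
      have h5 : D.x (k - a) • (Kr.valₗ D i (eps D i M) M x) = 0 := h3.2
      rw [h4, h5, map_zero]
      exact ⟨rfl, rfl⟩
  gen := by
    rw [eq_top_iff, ← Conv.span_mk, Submodule.span_le]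
    rintro _ ⟨u, w, rfl⟩
    have hu : u ∈ Submodule.span (KLRAlg D) {v} := by rw [hL.gen]; trivial
    obtain ⟨b, rfl⟩ := Submodule.mem_span_singleton.1 hu
    rw [← Conv.tr_smul_mk]
    refine Submodule.smul_mem _ _ ?_
    have hw : w ∈ Submodule.span (KLRAlg D) (Set.range (Kr.valₗ D i (eps D i M) M)) := by
      rw [(Kr.isGen hM i).gen]; trivial
    induction hw using Submodule.span_induction with
    | mem w hw =>
      obtain ⟨x, rfl⟩ := hw
      exact Submodule.subset_span ⟨x, rfl⟩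
    | zero => rw [map_zero]; exact Submodule.zero_mem _
    | add w w' _ _ hw hw' =>
      rw [map_add]
      exact Submodule.add_mem _ hw hw'
    | smul c w _ hw =>
      rw [← Conv.shn_smul_mk]
      exact Submodule.smul_mem _ _ hw

/-- a simple quotient `Z` of `L(i^a) ∘ Y` -/
theorem exists_surj_conv {L L' : SMod D} {v : L.M} {v' : L'.M}
    (hL : IsLp D i a L v) (hM : Smp D N M) (hL' : IsLp D i (a + eps D i M) L' v')
    (g : Conv D L.n L.M M →ₗ[KLRAlg D] Z) (hg : Function.Surjective g) :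
    IsInd D i (a + eps D i M) (N - eps D i M) (Kr D i (eps D i M) M)
      (Conv D L'.n L'.M (Kr D i (eps D i M) M)) (Conv.mk D L'.n L'.M (Kr D i (eps D i M) M) v') ∧
    ∃ q : Conv D L'.n L'.M (Kr D i (eps D i M) M) →ₗ[KLRAlg D] Z, Function.Surjective q := by
  have h1 := hL'.ind (N - eps D i M) (Kr D i (eps D i M) M) (Kr.fdMod hM.toFdMod)
    (Kr.noKr hM.strand le_rfl)
  obtain ⟨q, hq, -⟩ := h1.exists_surj ((isGen_conv hL hM).comp g hg)
  exact ⟨h1, q, hq⟩

end

namespace SMod

variable {D : Datum K I}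

/-- `e_i^max X` -/
noncomputable def Em (hb : S_basis D) (i : I) (X : SMod D) : SMod D :=
  ⟨X.n - KLR.eps D i X.M, Kr D i (KLR.eps D i X.M) X.M, Kr.smp hb X.smp i⟩

theorem emax_of_quo (hb : S_basis D) {i : I} {a : ℕ} {L : SMod D} {v : L.M}
    (hL : IsLp D i a L v) (Y Z : SMod D) (h : Quo D Z.M (L.conv Y)) :
    Emax i (a + KLR.eps D i Y.M) Z (Em hb i Y) := by
  obtain ⟨g, hg⟩ := h
  obtain ⟨L', v', hL'⟩ := exists_isLp hb i (a + KLR.eps D i Y.M)
  obtain ⟨h1, q, hq⟩ := exists_surj_conv hL Y.smp hL' g hg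
  have := Kr.simple hb Y.smp i
  have hn : Z.n = a + KLR.eps D i Y.M + (Y.n - KLR.eps D i Y.M) := by
    refine strand_unique Z.smp.strand ?_
    exact h1.fdm.strand.of_surjective q hq
  refine ⟨hn, fun ν => ?_, fun ν => ?_⟩
  · have h2 := h1.chr_quot q hq (a + KLR.eps D i Y.M + (Y.n - KLR.eps D i Y.M)) ν
    have h3 := chrQ_ind hb hL' (Kr.fdMod (i := i) (a := KLR.eps D i Y.M) Y.smp.toFdMod)
      (Kr.noKr Y.smp.strand le_rfl) ν
    rw [hL'.n_eq, chrQ_apply, chrQ_apply] at h3
    change chr D Z.n Z.M _ = _ * chr D (Y.n - KLR.eps D i Y.M) (Kr D i (KLR.eps D i Y.M) Y.M) ν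
    rw [hn, h2]
    rw [hL'.n_eq]
    exact_mod_cast h3
  · exact chr_cons_eq_zero (Kr.fdMod (i := i) (a := KLR.eps D i Y.M) Y.smp.toFdMod)
      (Kr.noKr Y.smp.strand le_rfl) ν

/-- `L(i^a) ∘ e_i^max X → X` for `a = ε_i(X)` -/
theorem quo_self (hb : S_basis D) {i : I} (X : SMod D) {L : SMod D} {v : L.M}
    (hL : IsLp D i (KLR.eps D i X.M) L v) : Quo D X.M (L.conv (Em hb i X)) := by
  have h1 := hL.ind (X.n - KLR.eps D i X.M) (Kr D i (KLR.eps D i X.M) X.M)
    (Kr.fdMod X.smp.toFdMod) (Kr.noKr X.smp.strand le_rfl)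
  obtain ⟨q, hq, -⟩ := h1.exists_surj (Kr.isGen X.smp i)
  exact ⟨q, hq⟩

theorem emax_self (hb : S_basis D) (i : I) (X : SMod D) :
    Emax i (KLR.eps D i X.M) X (Em hb i X) := by
  obtain ⟨L, v, hL⟩ := exists_isLp hb i 0
  have h1 := emax_of_quo hb hL X X (by
    have h2 : Quo D X.M (Conv D 0 (Un D) X.M) := ⟨(unEquiv D X.M).toLinearMap,
      (unEquiv D X.M).surjective⟩
    have h3 : (⟨0, Un D, Un.smp D⟩ : SMod D).Iso L := iso_of_zero rfl hL.n_eq
    exact quo_congr (X := ⟨0, Un D, Un.smp D⟩) h3 (Iso.refl X) (Iso.refl X) h2)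
  rwa [Nat.zero_add] at h1

end SMod

/-- a choice of the modules `L(i^a)` -/
noncomputable def LpS {D : Datum K I} (hb : S_basis D) (i : I) (a : ℕ) : SMod D :=
  (exists_isLp hb i a).choose

theorem LpS_spec {D : Datum K I} (hb : S_basis D) (i : I) (a : ℕ) :
    ∃ v, IsLp D i a (LpS hb i a) v := (exists_isLp hb i a).choose_spec

/-- THE CONTRACT of the block CRY -/
theorem cFacts {D : Datum K I} (hb : S_basis D) : CFacts D (LpS hb) where
  n_Lp i a := by
    obtain ⟨v, hL⟩ := LpS_spec hb i a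
    exact hL.n_eq
  ch_Lp i a ν := by
    obtain ⟨v, hL⟩ := LpS_spec hb i a
    have h1 := congrFun hL.ch ν
    rw [chrQ_apply] at h1
    change chr D (LpS hb i a).n (LpS hb i a).M ν = _
    unfold chLp at h1
    split_ifs at h1 with h
    · rw [if_pos h]
      exact_mod_cast h1
    · rw [if_neg h]
      exact_mod_cast h1
  res i X := by
    obtain ⟨v, hL⟩ := LpS_spec hb i (eps D i X.M)
    exact ⟨eps D i X.M, SMod.Em hb i X, SMod.emax_self hb i X, SMod.quo_self hb X hL⟩
  hd_iso i a Y Z Z' := by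
    rintro ⟨g, hg⟩ ⟨g', hg'⟩
    obtain ⟨v, hL⟩ := LpS_spec hb i a
    obtain ⟨L', v', hL'⟩ := exists_isLp hb i (a + eps D i Y.M)
    have h1 := hL'.ind (Y.n - eps D i Y.M) (Kr D i (eps D i Y.M) Y.M)
      (Kr.fdMod Y.smp.toFdMod) (Kr.noKr Y.smp.strand le_rfl)
    obtain ⟨q, hq, -⟩ := h1.exists_surj (isGen_conv hL Y.smp)
    have := Kr.simple hb Y.smp i
    exact h1.iso_of_simple (g.comp q) (hg.comp hq) (g'.comp q) (hg'.comp hq)
  hd_Emax i a b Y W Z hE h := by
    obtain ⟨v, hL⟩ := LpS_spec hb i a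
    have h1 := SMod.emax_of_quo hb hL Y Z h
    obtain ⟨h2, h3⟩ := SMod.Emax.unique rfl (SMod.emax_self hb i Y) hE
    rw [h2] at h1
    exact SMod.Emax.congr rfl h3 h1

/-! ### endomorphisms and the last crystal step -/

section

variable {D : Datum K I} {n N : ℕ} {M : Type}
  [AddCommGroup M] [Module K M] [Module (KLRAlg D) M] [IsScalarTower K (KLRAlg D) M]

omit [Module K M] [IsScalarTower K (KLRAlg D) M] in
theorem exists_eps_pos (hM : IsStrand D (n + 1) M) [Nontrivial M] : ∃ i, 0 < eps D i M := by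
  obtain ⟨u, hu⟩ := exists_ne (0 : M)
  have h1 : ∃ i, D.e 0 i • u ≠ 0 := by
    by_contra h
    push Not at h
    have h2 := hM.one 0 (Nat.succ_pos n) u
    rw [Datum.E, Finset.sum_smul, Finset.sum_eq_zero (fun i _ => h i)] at h2
    exact hu h2.symm
  obtain ⟨i, hi⟩ := h1
  refine ⟨i, ?_⟩
  have h2 : IsEw D i 1 (D.e 0 i • u) := by
    intro k hk
    have hk' : k = 0 := by omega
    subst hk'
    rw [← mul_smul, D.e_idem]
  have h3 := le_eps hM hi h2
  omega

/-- the endomorphisms of a simple module are the scalars -/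
theorem end_scalar (hb : S_basis D) : ∀ (n : ℕ) (M : Type) [AddCommGroup M] [Module K M]
    [Module (KLRAlg D) M] [IsScalarTower K (KLRAlg D) M], Smp D n M →
    ∀ f : M →ₗ[KLRAlg D] M, ∃ c : K, ∀ u, f u = c • u := by
  intro n
  induction n using Nat.strong_induction_on with
  | _ n ih =>
    intro M _ _ _ _ hM f
    have := hM.simple
    have hne : Nontrivial M := IsSimpleModule.nontrivial (KLRAlg D) M
    rcases Nat.eq_zero_or_pos n with hn | hn
    · subst hn
      have h1 := finrank_one_of_strand hM.strand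
      obtain ⟨v, hv, h2⟩ := finrank_eq_one_iff'.1 h1
      obtain ⟨c, hc⟩ := h2 (f v)
      refine ⟨c, fun u => ?_⟩
      obtain ⟨r, rfl⟩ := h2 u
      have h3 : f (r • v) = r • f v := (Conv.toK f).map_smul r v
      rw [h3, ← hc, smul_comm]
    · obtain ⟨m, rfl⟩ : ∃ m, n = m + 1 := ⟨n - 1, by omega⟩
      obtain ⟨i, hi⟩ := exists_eps_pos hM.strand
      have hle := eps_le (i := i) hM.strand
      let f' : Kr D i (eps D i M) M →ₗ[KLRAlg D] Kr D i (eps D i M) M :=
        { toFun := fun u => Kr.of (f (Kr.val u)) ((Kr.val_isKr u).map f)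
          map_add' := fun u v => Kr.val_injective (map_add f _ _)
          map_smul' := fun b u => Kr.val_injective (map_smul f _ _) }
      obtain ⟨c, hc⟩ := ih (m + 1 - eps D i M) (by omega) _ (Kr.smp hb hM i) f'
      refine ⟨c, ?_⟩
      have hKn : Nontrivial (Kr D i (eps D i M) M) := Kr.nontrivial hM.strand hM.nilp
      obtain ⟨u, hu⟩ := exists_ne (0 : Kr D i (eps D i M) M)
      obtain ⟨g, hg⟩ : ∃ g : M →ₗ[KLRAlg D] M, ∀ u, g u = f u - c • u :=
        ⟨f - c • (LinearMap.id : M →ₗ[KLRAlg D] M), fun u => rfl⟩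
      have h1 : g (Kr.val u) = 0 := by
        rw [hg, sub_eq_zero]
        exact congrArg Kr.val (hc u)
      rcases LinearMap.bijective_or_eq_zero g with h2 | h2
      · exfalso
        apply hu
        apply Kr.val_injective
        rw [Kr.val_zero]
        exact h2.1 (h1.trans (map_zero _).symm)
      · intro v
        have h3 := LinearMap.congr_fun h2 v
        rw [hg, LinearMap.zero_apply, sub_eq_zero] at h3
        exact h3

end

end Pool.Agent.KLR
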