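import Pool.Agent.Work.MP_e487d8_al.Cry.Bas
import Pool.Agent.Work.MP_e487d8_al.Mod.Fd

/-! MP_e487d8_al, block CRY: the modules `P_a X = L(i) ∘ (L(i) ∘ ... ∘ X)` for `e_i X = 0` and the
modules `L(i^a)`. -/

set_option autoImplicit false

open scoped TensorProduct
open Pool.Agent.E487.Hopf

namespace Pool.Agent.KLR

variable {K I : Type} [Field K] [Fintype I] [DecidableEq I]

/-- `P` represents the functor `Q ↦ Hom(X, Kr i a Q)` and `Kr i a P = X` -/
structure IsInd (D : Datum K I) (i : I) (a n : ℕ) (X P : Type) [AddCommGroup X] [Module K X]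
    [Module (KLRAlg D) X] [AddCommGroup P] [Module K P] [Module (KLRAlg D) P]
    (j : X →ₗ[K] P) : Prop where
  fdm : FdMod D (a + n) P
  bal : ∀ (b : KLRAlg D) (x : X), D.shn a b • j x = j (b • x)
  kr : ∀ x, IsKr D i a (j x)
  inj : Function.Injective j
  ker : ∀ u, IsKr D i a u → ∃ x, j x = u
  gen : Submodule.span (KLRAlg D) (Set.range j) = ⊤
  univ : ∀ (Q : Type) [AddCommGroup Q] [Module K Q] [Module (KLRAlg D) Q]
    [IsScalarTower K (KLRAlg D) Q] (f : X →ₗ[K] Q),
    (∀ (b : KLRAlg D) (x : X), D.shn a b • f x = f (b • x)) → (∀ x, IsKr D i a (f x)) →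
    ∃ g : P →ₗ[KLRAlg D] Q, ∀ x, g (j x) = f x
  cou : CouInj D i (a + n) P

section

variable {D : Datum K I} {i : I} {a n : ℕ} {X P P' : Type}
  [AddCommGroup X] [Module K X] [Module (KLRAlg D) X] [IsScalarTower K (KLRAlg D) X]
  [AddCommGroup P] [Module K P] [Module (KLRAlg D) P] [IsScalarTower K (KLRAlg D) P]
  [AddCommGroup P'] [Module K P'] [Module (KLRAlg D) P'] [IsScalarTower K (KLRAlg D) P']

theorem IsInd.base (hX : FdMod D n X) (h0 : ∀ x : X, IsKr D i 1 x → x = 0) :
    IsInd D i 0 n X X LinearMap.id where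
  fdm := by rwa [Nat.zero_add]
  bal b x := by rw [D.shn_zero]; rfl
  kr x := isKr_nil x
  inj := Function.injective_id
  ker u _ := ⟨u, rfl⟩
  gen := by
    rw [eq_top_iff]
    intro x _
    exact Submodule.subset_span ⟨x, rfl⟩
  univ Q _ _ _ _ f hf _ := by
    refine ⟨{ toFun := f, map_add' := map_add f, map_smul' := fun b x => ?_ }, fun x => rfl⟩
    have h := hf b x
    rw [D.shn_zero] at h
    exact h.symm
  cou y hy _ p _ := h0 _ (hy p)

theorem FdMod.equiv {m : ℕ} (h : FdMod D m P) (φ : P ≃ₗ[KLRAlg D] P') : FdMod D m P' where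
  strand := h.strand.of_surjective φ.toLinearMap φ.surjective
  fd := by
    have := h.fd
    exact Module.Finite.of_surjective (Conv.toK φ.toLinearMap) φ.surjective
  nilp k := by
    obtain ⟨N, hN⟩ := h.nilp k
    refine ⟨N, fun u => ?_⟩
    obtain ⟨u, rfl⟩ := φ.surjective u
    rw [← map_smul, hN, map_zero]

theorem IsInd.congr {j : X →ₗ[K] P} (h : IsInd D i a n X P j) (φ : P ≃ₗ[KLRAlg D] P')
    (j' : X →ₗ[K] P') (hj : ∀ x, j' x = φ (j x)) : IsInd D i a n X P' j' where
  fdm := h.fdm.equiv φ
  bal b x := by rw [hj, hj, ← map_smul, h.bal]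
  kr x := by rw [hj]; exact (h.kr x).map φ.toLinearMap
  inj x y hxy := by
    rw [hj, hj] at hxy
    exact h.inj (φ.injective hxy)
  ker u hu := by
    obtain ⟨x, hx⟩ := h.ker (φ.symm u) (hu.map φ.symm.toLinearMap)
    exact ⟨x, by rw [hj, hx, LinearEquiv.apply_symm_apply]⟩
  gen := by
    have h1 : Set.range j' = φ.toLinearMap '' Set.range j := by
      ext z
      constructor
      · rintro ⟨x, rfl⟩
        exact ⟨j x, ⟨x, rfl⟩, (hj x).symm⟩
      · rintro ⟨_, ⟨x, rfl⟩, rfl⟩
        exact ⟨x, hj x⟩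
    rw [h1, ← Submodule.map_span, h.gen, Submodule.map_top, LinearMap.range_eq_top]
    exact φ.surjective
  univ Q _ _ _ _ f hf hk := by
    obtain ⟨g, hg⟩ := h.univ Q f hf hk
    refine ⟨g.comp φ.symm.toLinearMap, fun x => ?_⟩
    rw [hj, LinearMap.comp_apply, LinearEquiv.coe_coe, LinearEquiv.symm_apply_apply, hg]
  cou y hy hs p hp := by
    have h1 := h.cou (fun p => φ.symm (y p)) (fun p => (hy p).map φ.symm.toLinearMap) ?_ p hp
    · rwa [LinearEquiv.map_eq_zero_iff] at h1
    · apply φ.injective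
      rw [map_zero, ← hs, map_sum]
      refine Finset.sum_congr rfl fun p _ => ?_
      rw [map_smul, LinearEquiv.apply_symm_apply]

omit [IsScalarTower K (KLRAlg D) X] [IsScalarTower K (KLRAlg D) P] in
theorem lk_mem_span {j : X →ₗ[K] P} (h : Submodule.span (KLRAlg D) (Set.range j) = ⊤) (v : P) :
    lk D i P v ∈ Submodule.span (KLRAlg D) (Set.range ((lk D i P).comp j)) := by
  have hv : v ∈ Submodule.span (KLRAlg D) (Set.range j) := by rw [h]; trivial
  induction hv using Submodule.span_induction with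
  | mem v hv =>
    obtain ⟨x, rfl⟩ := hv
    exact Submodule.subset_span ⟨x, rfl⟩
  | zero => rw [map_zero]; exact Submodule.zero_mem _
  | add v w _ _ hv hw =>
    rw [map_add]
    exact Submodule.add_mem _ hv hw
  | smul b v _ hv =>
    rw [← shn_smul_lk]
    exact Submodule.smul_mem _ _ hv

theorem IsInd.step (hb : S_basis D) {j : X →ₗ[K] P}
    (h : IsInd D i a n X P j) :
    IsInd D i (1 + a) n X (Conv D 1 (Lt D i) P) ((lk D i P).comp j) where
  fdm := by
    rw [Nat.add_assoc]
    exact Conv.fdMod hb (Lt.smp D i).toFdMod h.fdm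
  bal b x := by
    rw [← D.shn_shn, LinearMap.comp_apply, LinearMap.comp_apply, shn_smul_lk, h.bal]
  kr x := isKr_lk (h.kr x)
  inj x y hxy := h.inj (lk_injective hb h.fdm.strand hxy)
  ker u hu := by
    obtain ⟨y, rfl⟩ := exists_lk hb h.fdm.strand h.cou u (hu.mono (by omega))
    obtain ⟨x, hx⟩ := h.ker y (isKr_of_lk hb h.fdm.strand hu)
    exact ⟨x, by rw [LinearMap.comp_apply, hx]⟩
  gen := by
    rw [eq_top_iff, ← Conv.span_mk, Submodule.span_le]
    rintro _ ⟨u, v, rfl⟩
    obtain ⟨c, -, hc⟩ := mk_eq_lk u v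
    rw [hc, ← algebraMap_smul (KLRAlg D)]
    refine Submodule.smul_mem _ _ ?_
    exact lk_mem_span h.gen v
  univ Q _ _ _ _ f hf hk := by
    obtain ⟨g, hg⟩ := h.univ (Tw (D.shn 1) Q) ((Tw.mk (D.shn 1)).toLinearMap.comp f)
      (fun b x => by
        rw [LinearMap.comp_apply, LinearEquiv.coe_coe, Tw.smul_mk, D.shn_shn, hf]
        rfl)
      (fun x k hk' => by
        have h1 := hk x (1 + k) (by omega)
        rw [LinearMap.comp_apply, LinearEquiv.coe_coe, Tw.smul_mk, Tw.smul_mk, D.shn_e, D.shn_x,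
          h1.1, h1.2, map_zero]
        exact ⟨rfl, rfl⟩)
    have key : ∀ p : P, D.e 0 i • (Tw.mk (D.shn 1)).symm (g p) = (Tw.mk (D.shn 1)).symm (g p) ∧
        D.x 0 • (Tw.mk (D.shn 1)).symm (g p) = 0 := by
      intro p
      have hv : p ∈ Submodule.span (KLRAlg D) (Set.range j) := by rw [h.gen]; trivial
      induction hv using Submodule.span_induction with
      | mem v hv =>
        obtain ⟨x, rfl⟩ := hv
        rw [hg, LinearMap.comp_apply, LinearEquiv.coe_coe, LinearEquiv.symm_apply_apply]
        exact hk x 0 (by omega)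
      | zero =>
        rw [map_zero, map_zero, smul_zero, smul_zero]
        exact ⟨rfl, rfl⟩
      | add v w _ _ hv hw =>
        rw [map_add, map_add, smul_add, smul_add, hv.1, hw.1, hv.2, hw.2, add_zero]
        exact ⟨rfl, rfl⟩
      | smul b v _ hv =>
        have h1 := D.tr_mul_shn (le_refl 1) (D.e 0 i) b
        have h2 := D.tr_mul_shn (le_refl 1) (D.x 0) b
        rw [D.tr_e, if_pos (by omega)] at h1
        rw [D.tr_x, if_pos (by omega)] at h2
        have h3 : (Tw.mk (D.shn 1)).symm (g (b • v)) =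
            D.shn 1 b • (Tw.mk (D.shn 1)).symm (g v) := by
          rw [map_smul]
          rfl
        rw [h3]
        constructor
        · rw [← mul_smul, h1, mul_smul, hv.1]
        · rw [← mul_smul, h2, mul_smul, hv.2, smul_zero]
    refine ⟨ltLift (i := i) ((Tw.mk (D.shn 1)).symm.toLinearMap.comp (Conv.toK g))
      (fun b y => ?_) (fun y => (key y).1) (fun y => (key y).2), fun x => ?_⟩
    · rw [LinearMap.comp_apply, LinearMap.comp_apply, Conv.toK_apply, Conv.toK_apply, map_smul]
      rfl
    · have h1 := ltLift_mk (i := i) ((Tw.mk (D.shn 1)).symm.toLinearMap.comp (Conv.toK g))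
        (fun b y => by
          rw [LinearMap.comp_apply, LinearMap.comp_apply, Conv.toK_apply, Conv.toK_apply, map_smul]
          rfl) (fun y => (key y).1) (fun y => (key y).2) (j x)
      refine h1.trans ?_
      rw [LinearMap.comp_apply, Conv.toK_apply, hg]
      rfl
  cou := by
    rw [show 1 + a + n = a + n + 1 by omega]
    exact couInj_conv hb h.fdm.strand h.cou

/-! ### the unit isomorphism -/

/-- auxiliary bilinear map -/
noncomputable def unBil (D : Datum K I) (X : Type) [AddCommGroup X] [Module K X] :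
    Un D →ₗ[K] X →ₗ[K] X :=
  (LinearMap.toSpanSingleton K (X →ₗ[K] X) LinearMap.id).comp (Un.of D).symm.toLinearMap

omit [Fintype I] [DecidableEq I] [Module (KLRAlg D) X] [IsScalarTower K (KLRAlg D) X] in
theorem unBil_apply (c : K) (x : X) : unBil D X (c • Un.one D) x = c • x := by
  unfold unBil
  rw [← Un.of_eq]
  simp

theorem tr_zero (a : KLRAlg D) : D.tr 0 a = algebraMap K _ (unHom D a) := by
  have h : D.tr 0 = (Algebra.ofId K (KLRAlg D)).comp (unHom D) := by
    apply hom_ext
    · intro k j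
      rw [D.tr_e, if_neg (by omega), AlgHom.comp_apply, Un.unHom_e, map_zero]
    · intro k
      rw [D.tr_x, if_neg (by omega), AlgHom.comp_apply, Un.unHom_x, map_zero]
    · intro k
      rw [D.tr_t, if_neg (by omega), AlgHom.comp_apply, Un.unHom_t, map_zero]
  rw [h]
  rfl

theorem unBil_balanced : Balanced D 0 (unBil D X) where
  left a u v := by
    obtain ⟨c, rfl⟩ := Un.exists_eq D u
    rw [Un.smul_eq, smul_smul, unBil_apply, unBil_apply, tr_zero, algebraMap_smul, smul_smul]
  right a u v := by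
    obtain ⟨c, rfl⟩ := Un.exists_eq D u
    rw [unBil_apply, unBil_apply, D.shn_zero, smul_comm]

variable (D X) in
/-- `1 ∘ X = X` -/
noncomputable def unEquiv : Conv D 0 (Un D) X ≃ₗ[KLRAlg D] X :=
  LinearEquiv.ofLinearMap (Conv.lift (unBil D X) unBil_balanced)
    { toFun := Conv.mk D 0 (Un D) X (Un.one D)
      map_add' := map_add _
      map_smul' := fun b x => by
        have h := Conv.shn_smul_mk (D := D) (m := 0) b (Un.one D) x
        rw [D.shn_zero] at h
        exact h.symm }
    (by
      ext x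
      have h := unBil_apply (D := D) 1 x
      rw [one_smul, one_smul] at h
      change Conv.lift (unBil D X) unBil_balanced (Conv.mk D 0 (Un D) X (Un.one D) x) = x
      rw [Conv.lift_mk, h])
    (by
      apply Conv.hom_ext
      intro u x
      obtain ⟨c, rfl⟩ := Un.exists_eq D u
      rw [LinearMap.comp_apply, Conv.lift_mk, unBil_apply]
      change Conv.mk D 0 (Un D) X (Un.one D) (c • x) = _
      rw [map_smul, map_smul, LinearMap.smul_apply]
      rfl)

theorem unEquiv_symm_apply (x : X) :
    (unEquiv D X).symm x = Conv.mk D 0 (Un D) X (Un.one D) x := rfl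

end

/-! ### the modules `L(i^a)` -/

/-- the character of `L(i^a)` -/
noncomputable def chLp (i : I) (a : ℕ) : Sh I ℚ :=
  fun w => if w = List.replicate a i then (a.factorial : ℚ) else 0

theorem L_chLp_succ (i : I) (a : ℕ) : Sh.L i (chLp i (a + 1)) = ((a : ℚ) + 1) • chLp i a := by
  apply Sh.ext'
  intro w
  rw [Sh.L_apply, Sh.smul_apply]
  unfold chLp
  rw [List.replicate_succ]
  by_cases h : w = List.replicate a i
  · rw [if_pos (by rw [h]), if_pos h, Nat.factorial_succ]
    push_cast
    ring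
  · rw [if_neg (by simp [h]), if_neg h, mul_zero]

theorem L_chLp_zero (i j : I) : Sh.L j (chLp i 0) = 0 := by
  apply Sh.ext'
  intro w
  rw [Sh.L_apply]
  unfold chLp
  rw [if_neg (by simp), Sh.zero_apply]

theorem L_chLp_ne {i j : I} (h : j ≠ i) (a : ℕ) : Sh.L j (chLp i a) = 0 := by
  apply Sh.ext'
  intro w
  rw [Sh.L_apply, Sh.zero_apply]
  unfold chLp
  cases a with
  | zero => rw [if_neg (by simp)]
  | succ a =>
    rw [List.replicate_succ, if_neg (by simp [h])]

theorem chLp_zero (i : I) : chLp i 0 = 1 := by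
  apply Sh.ext'
  intro w
  unfold chLp
  cases w with
  | nil => rw [Sh.one_nil]; simp
  | cons j w => rw [Sh.one_cons, if_neg (by simp)]

theorem chLp_mul (i : I) (a : ℕ) : chLp i 1 * chLp i a = chLp i (1 + a) := by
  rw [Nat.add_comm]
  have key : ∀ (w : List I) (a : ℕ), (chLp i 1 * chLp i a) w = chLp i (a + 1) w := by
    intro w
    induction w with
    | nil =>
      intro a
      rw [Sh.mul_nil]
      unfold chLp
      simp [List.replicate_succ]
    | cons j w ih =>
      intro a
      rw [Sh.mul_cons]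
      by_cases h : j = i
      · subst h
        have h1 := congrFun (L_chLp_succ j a) w
        rw [Sh.L_apply, Sh.smul_apply] at h1
        rw [h1]
        have h2 : Sh.L j (chLp j 1) = 1 := by
          rw [L_chLp_succ j 0, chLp_zero]
          simp
        rw [h2, one_mul]
        cases a with
        | zero =>
          rw [L_chLp_zero, mul_zero, Sh.zero_apply, add_zero]
          simp
        | succ a =>
          rw [L_chLp_succ, mul_smul_comm, Sh.smul_apply, ih a]
          push_cast
          ring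
      · have h1 := congrFun (L_chLp_ne h (a + 1)) w
        rw [Sh.L_apply, Sh.zero_apply] at h1
        rw [h1, L_chLp_ne h, L_chLp_ne h, zero_mul, mul_zero, Sh.zero_apply, add_zero]
  exact Sh.ext' fun w => key w a

theorem chrQ_un (D : Datum K I) : chrQ D 0 (Un D) = 1 := by
  apply Sh.ext'
  intro w
  rw [chrQ_apply]
  unfold chr
  cases w with
  | nil =>
    rw [Sh.one_nil]
    have h : wordSp D (Un D) [] = ⊤ := by
      rw [eq_top_iff]
      intro u _
      exact ⟨u, by
        change (D.eW []) • u = u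
        rw [Datum.eW, one_smul]⟩
    rw [h, finrank_top, Un.finrank_eq]
    simp
  | cons j w =>
    rw [if_neg (by simp), Sh.one_cons]
    norm_num

theorem chrQ_lt (D : Datum K I) (i : I) : chrQ D 1 (Lt D i) = chLp i 1 := by
  apply Sh.ext'
  intro w
  rw [chrQ_apply]
  unfold chr chLp
  by_cases hw : w.length = 1
  · obtain ⟨j, rfl⟩ := List.length_eq_one_iff.1 hw
    by_cases h : j = i
    · subst h
      have h : wordSp D (Lt D j) [j] = ⊤ := by
        rw [eq_top_iff]
        intro u _
        exact ⟨u, by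
          change (D.eW [j]) • u = u
          rw [Datum.eW, Datum.eW, map_one, mul_one, Lt.e_smul]⟩
      rw [h, finrank_top, Lt.finrank_eq]
      simp
    · have h' : wordSp D (Lt D i) [j] = ⊥ := by
        rw [eq_bot_iff]
        rintro u ⟨v, rfl⟩
        change (D.eW [j]) • v = 0
        rw [Datum.eW, Datum.eW, map_one, mul_one, Lt.e_smul_ne D i h]
      rw [h', finrank_bot]
      simp [h]
  · rw [if_neg hw, if_neg]
    · norm_num
    · rintro rfl
      simp at hw

/-- existence of the modules `L(i^a)` -/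
theorem exists_Lp {D : Datum K I} (hb : S_basis D) (i : I) (a : ℕ) :
    ∃ (L : Type) (_ : AddCommGroup L) (_ : Module K L) (_ : Module (KLRAlg D) L)
      (_ : IsScalarTower K (KLRAlg D) L) (v : L), v ≠ 0 ∧ IsKr D i a v ∧ FdMod D a L ∧
      Submodule.span (KLRAlg D) {v} = ⊤ ∧ chrQ D a L = chLp i a ∧
      (CouInj D i a L ∧ ∀ u : L, IsKr D i a u → ∃ c : K, u = c • v) ∧
      ∀ (n : ℕ) (X : Type) [AddCommGroup X] [Module K X] [Module (KLRAlg D) X]
        [IsScalarTower K (KLRAlg D) X], FdMod D n X → (∀ x : X, IsKr D i 1 x → x = 0) →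
        IsInd D i a n X (Conv D a L X) (Conv.mk D a L X v) := by
  induction a with
  | zero =>
    refine ⟨Un D, inferInstance, inferInstance, inferInstance, inferInstance, Un.one D,
      Un.one_ne_zero D, isKr_nil _, (Un.smp D).toFdMod, ?_, ?_,
      ⟨fun y _ _ p hp => absurd hp (by omega), fun u _ => Un.exists_eq D u⟩, ?_⟩
    · rw [eq_top_iff]
      intro u _
      obtain ⟨c, rfl⟩ := Un.exists_eq D u
      rw [← algebraMap_smul (KLRAlg D)]
      exact Submodule.smul_mem _ _ (Submodule.subset_span rfl)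
    · rw [chrQ_un, chLp_zero]
    · intro n X _ _ _ _ hX h0
      exact (IsInd.base hX h0).congr (unEquiv D X).symm _ (fun x => rfl)
  | succ a ih =>
    obtain ⟨L, i1, i2, i3, i4, v, hv, hk, hL, hg, hc, ⟨hcou, hker⟩, hI⟩ := ih
    rw [Nat.add_comm a 1]
    refine ⟨Conv D 1 (Lt D i) L, inferInstance, inferInstance, inferInstance, inferInstance,
      lk D i L v, ?_, isKr_lk hk, Conv.fdMod hb (Lt.smp D i).toFdMod hL, ?_, ?_, ⟨?_, ?_⟩, ?_⟩
    · intro h
      exact hv (lk_injective hb hL.strand (h.trans (map_zero _).symm))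
    · rw [eq_top_iff, ← Conv.span_mk, Submodule.span_le]
      rintro _ ⟨u, w, rfl⟩
      obtain ⟨c, -, hc⟩ := mk_eq_lk u w
      rw [hc, ← algebraMap_smul (KLRAlg D)]
      refine Submodule.smul_mem _ _ ?_
      have hw : w ∈ Submodule.span (KLRAlg D) {v} := by rw [hg]; trivial
      obtain ⟨b, rfl⟩ := Submodule.mem_span_singleton.1 hw
      rw [← shn_smul_lk]
      exact Submodule.smul_mem _ _ (Submodule.subset_span rfl)
    · rw [(Conv.fdMod_chrQ hb (Lt.smp D i).toFdMod hL).2, ← chLp_mul, ← chrQ_lt D i, ← hc]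
    · rw [Nat.add_comm 1 a]
      exact couInj_conv hb hL.strand hcou
    · intro u hu
      obtain ⟨y, rfl⟩ := exists_lk hb hL.strand hcou u (hu.mono (by omega))
      obtain ⟨c, rfl⟩ := hker y (isKr_of_lk hb hL.strand hu)
      exact ⟨c, map_smul _ _ _⟩
    · intro n X _ _ _ _ hX h0
      exact ((hI n X hX h0).step hb).congr (Conv.assoc D 1 a (Lt D i) L X).symm _
        (fun x => (Conv.assoc_symm_mk _ _ _).symm)

end Pool.Agent.KLR
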