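import Pool.Agent.Work.MP_e487d8_al.Mod.Lt
import Pool.Agent.Work.MP_e487d8_al.Bd.B01

/-! MP_e487d8_al, block CRY: the spaces `e(i^a) M`, the common kernel of the first `a` dots on
them, and the number `ε_i(M)`. -/

set_option autoImplicit false

open scoped TensorProduct

namespace Pool.Agent.KLR

variable {K I : Type} [Field K] [Fintype I] [DecidableEq I]

section

variable (D : Datum K I) (i : I) (a : ℕ) {M : Type} [AddCommGroup M] [Module (KLRAlg D) M]

/-- `u` lies in `e(i^a) M` -/
def IsEw (u : M) : Prop := ∀ k < a, D.e k i • u = u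

/-- `u` lies in `e(i^a) M` and is killed by the first `a` dots -/
def IsKr (u : M) : Prop := ∀ k < a, D.e k i • u = u ∧ D.x k • u = 0

variable (M) in
/-- `ε_i(M)`: the largest `a` with `e(i^a) M ≠ 0` -/
noncomputable def eps : ℕ := sSup {a | ∃ u : M, u ≠ 0 ∧ IsEw D i a u}

end

section

variable {D : Datum K I} {i : I} {a n : ℕ} {M : Type} [AddCommGroup M] [Module (KLRAlg D) M]

theorem IsKr.isEw {u : M} (h : IsKr D i a u) : IsEw D i a u := fun k hk => (h k hk).1

theorem isEw_zero : IsEw D i a (0 : M) := fun _ _ => smul_zero _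
theorem isKr_zero : IsKr D i a (0 : M) := fun _ _ => ⟨smul_zero _, smul_zero _⟩
theorem isKr_nil (u : M) : IsKr D i 0 u := fun k hk => absurd hk (by omega)
theorem isEw_nil (u : M) : IsEw D i 0 u := fun k hk => absurd hk (by omega)

theorem IsEw.add {u v : M} (hu : IsEw D i a u) (hv : IsEw D i a v) : IsEw D i a (u + v) :=
  fun k hk => by rw [smul_add, hu k hk, hv k hk]

theorem IsEw.sub {u v : M} (hu : IsEw D i a u) (hv : IsEw D i a v) : IsEw D i a (u - v) :=
  fun k hk => by rw [smul_sub, hu k hk, hv k hk]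

theorem IsEw.mono {b : ℕ} {u : M} (hu : IsEw D i a u) (h : b ≤ a) : IsEw D i b u :=
  fun k hk => hu k (by omega)

theorem IsKr.mono {b : ℕ} {u : M} (hu : IsKr D i a u) (h : b ≤ a) : IsKr D i b u :=
  fun k hk => hu k (by omega)

theorem IsEw.x_smul {u : M} (hu : IsEw D i a u) (l : ℕ) : IsEw D i a (D.x l • u) :=
  fun k hk => by rw [← mul_smul, ← D.x_e, mul_smul, hu k hk]

theorem IsEw.shn_smul {u : M} (hu : IsEw D i a u) (b : KLRAlg D) : IsEw D i a (D.shn a b • u) :=
  fun k hk => by
    have h1 := D.tr_mul_shn (le_refl a) (D.e k i) b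
    rw [D.tr_e, if_pos hk] at h1
    rw [← mul_smul, h1, mul_smul, hu k hk]

theorem IsKr.add {u v : M} (hu : IsKr D i a u) (hv : IsKr D i a v) : IsKr D i a (u + v) :=
  fun k hk => ⟨by rw [smul_add, (hu k hk).1, (hv k hk).1],
    by rw [smul_add, (hu k hk).2, (hv k hk).2, add_zero]⟩

theorem IsKr.shn_smul {u : M} (hu : IsKr D i a u) (b : KLRAlg D) : IsKr D i a (D.shn a b • u) := by
  intro k hk
  have h1 := D.tr_mul_shn (le_refl a) (D.e k i) b
  have h2 := D.tr_mul_shn (le_refl a) (D.x k) b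
  rw [D.tr_e, if_pos hk] at h1
  rw [D.tr_x, if_pos hk] at h2
  constructor
  · rw [← mul_smul, h1, mul_smul, (hu k hk).1]
  · rw [← mul_smul, h2, mul_smul, (hu k hk).2, smul_zero]

variable (D i a M) in
/-- the common kernel of the first `a` dots on `e(i^a) M`, an `(n - a)`-strand module -/
def Kr : Submodule (KLRAlg D) (Tw (D.shn a) M) where
  carrier := {u | IsKr D i a (M := M) u}
  zero_mem' := isKr_zero (M := M)
  add_mem' := fun hu hv => IsKr.add (M := M) hu hv
  smul_mem' := fun b _ hu => IsKr.shn_smul (M := M) hu b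

theorem IsEw.map {N : Type} [AddCommGroup N] [Module (KLRAlg D) N] {u : M} (hu : IsEw D i a u)
    (f : M →ₗ[KLRAlg D] N) : IsEw D i a (f u) :=
  fun k hk => by rw [← map_smul, hu k hk]

theorem IsKr.map {N : Type} [AddCommGroup N] [Module (KLRAlg D) N] {u : M} (hu : IsKr D i a u)
    (f : M →ₗ[KLRAlg D] N) : IsKr D i a (f u) :=
  fun k hk => ⟨by rw [← map_smul, (hu k hk).1], by rw [← map_smul, (hu k hk).2, map_zero]⟩

variable (D i a) in
/-- the idempotent `e(i^a)` -/
noncomputable def ew : KLRAlg D := ((List.range a).map fun k => D.e k i).prod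

theorem ew_zero : ew D i 0 = 1 := rfl

theorem ew_succ : ew D i (a + 1) = ew D i a * D.e a i := by
  unfold ew
  rw [List.range_succ, List.map_append, List.prod_append]
  simp

theorem ew_comm_e (l : ℕ) (j : I) : ew D i a * D.e l j = D.e l j * ew D i a := by
  induction a with
  | zero => rw [ew_zero, one_mul, mul_one]
  | succ a ih => rw [ew_succ, mul_assoc, D.e_comm a l, ← mul_assoc, ih, mul_assoc]

theorem ew_comm_x (l : ℕ) : ew D i a * D.x l = D.x l * ew D i a := by
  induction a with
  | zero => rw [ew_zero, one_mul, mul_one]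
  | succ a ih => rw [ew_succ, mul_assoc, ← D.x_e, ← mul_assoc, ih, mul_assoc]

/-- `e(i^a) u` lies in `e(i^a) M` -/
theorem isEw_ew (u : M) : IsEw D i a (ew D i a • u) := by
  induction a with
  | zero => exact isEw_nil _
  | succ a ih =>
    intro k hk
    rw [ew_succ]
    by_cases h : k = a
    · subst h
      rw [← mul_smul, ← mul_assoc, ← ew_comm_e, mul_assoc, D.e_idem]
    · rw [ew_comm_e, mul_smul, ← mul_smul (D.e k i), D.e_comm, mul_smul, ih k (by omega)]

theorem IsEw.ew_smul {u : M} (hu : IsEw D i a u) : ew D i a • u = u := by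
  induction a with
  | zero => rw [ew_zero, one_smul]
  | succ a ih => rw [ew_succ, mul_smul, hu a (by omega), ih (hu.mono (by omega))]

/-- a nonzero vector of `e(i^a) M` can be multiplied by dots into the common kernel -/
theorem exists_isKr (hM : Nilp D M) {u : M} (hu : u ≠ 0) (he : IsEw D i a u) :
    ∃ c : KLRAlg D, c • u ≠ 0 ∧ IsKr D i a (c • u) ∧ ∀ l j, D.e l j * c = c * D.e l j := by
  have key : ∀ b : ℕ, ∃ c : KLRAlg D, c • u ≠ 0 ∧ (∀ k < b, D.x k • c • u = 0) ∧
      ∀ l j, D.e l j * c = c * D.e l j := by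
    intro b
    induction b with
    | zero => exact ⟨1, by rwa [one_smul], fun k hk => absurd hk (by omega), by simp⟩
    | succ b ih =>
      obtain ⟨c, h1, h2, h3⟩ := ih
      classical
      have hex : ∃ N : ℕ, D.x b ^ N • c • u = 0 := by
        obtain ⟨N, hN⟩ := hM b
        exact ⟨N, hN _⟩
      have hpos : Nat.find hex ≠ 0 := by
        intro h0
        have h4 := Nat.find_spec hex
        rw [h0, pow_zero, one_smul] at h4
        exact h1 h4
      obtain ⟨r, hr⟩ := Nat.exists_eq_succ_of_ne_zero hpos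
      refine ⟨D.x b ^ r * c, ?_, ?_, ?_⟩
      · rw [mul_smul]
        exact Nat.find_min hex (by omega)
      · intro k hk
        by_cases h : k = b
        · subst h
          rw [mul_smul, ← mul_smul, ← pow_succ', ← Nat.succ_eq_add_one, ← hr]
          exact Nat.find_spec hex
        · rw [mul_smul, ← mul_smul, ← D.x_pow_x, mul_smul, h2 k (by omega), smul_zero]
      · intro l j
        rw [← mul_assoc, ← D.x_pow_e, mul_assoc, h3, mul_assoc]
  obtain ⟨c, h1, h2, h3⟩ := key a
  refine ⟨c, h1, fun k hk => ⟨?_, h2 k hk⟩, h3⟩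
  rw [← mul_smul, h3, mul_smul, he k hk]

/-! ### `ε_i` -/

theorem isEw_eq_zero (hM : IsStrand D n M) (h : n < a) {u : M} (hu : IsEw D i a u) : u = 0 := by
  rw [← hu n h, hM.zero n le_rfl]

theorem eps_bdd (hM : IsStrand D n M) :
    BddAbove {a : ℕ | ∃ u : M, u ≠ 0 ∧ IsEw D i a u} := by
  refine ⟨n, ?_⟩
  rintro a ⟨u, hu, h⟩
  by_contra hn
  exact hu (isEw_eq_zero hM (by omega) h)

theorem le_eps (hM : IsStrand D n M) {u : M} (hu : u ≠ 0) (h : IsEw D i a u) : a ≤ eps D i M :=
  le_csSup (eps_bdd hM) ⟨u, hu, h⟩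

theorem eq_zero_of_eps_lt (hM : IsStrand D n M) (h : eps D i M < a) {u : M} (hu : IsEw D i a u) :
    u = 0 := by
  by_contra h1
  exact absurd (le_eps hM h1 hu) (by omega)

theorem exists_eps (hM : IsStrand D n M) [Nontrivial M] :
    ∃ u : M, u ≠ 0 ∧ IsEw D i (eps D i M) u := by
  obtain ⟨u, hu⟩ := exists_ne (0 : M)
  have h := Nat.sSup_mem (s := {a : ℕ | ∃ u : M, u ≠ 0 ∧ IsEw D i a u}) ⟨0, u, hu, isEw_nil u⟩
    (eps_bdd hM)
  exact h

theorem eps_le (hM : IsStrand D n M) : eps D i M ≤ n := by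
  by_cases hne : Nontrivial M
  · obtain ⟨u, hu, h⟩ := exists_eps (i := i) hM
    by_contra h1
    exact hu (isEw_eq_zero hM (by omega) h)
  · rw [not_nontrivial_iff_subsingleton] at hne
    have : {a | ∃ u : M, u ≠ 0 ∧ IsEw D i a u} = ∅ := by
      rw [Set.eq_empty_iff_forall_notMem]
      rintro a ⟨u, hu, _⟩
      exact hu (Subsingleton.elim _ _)
    unfold eps
    rw [this, csSup_empty]
    exact Nat.zero_le _

theorem eps_eq (hM : IsStrand D n M) {u : M} (hu : u ≠ 0) (h : IsEw D i a u)
    (h' : ∀ v : M, IsEw D i (a + 1) v → v = 0) : eps D i M = a := by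
  have h1 := le_eps hM hu h
  have : Nontrivial M := ⟨⟨u, 0, hu⟩⟩
  obtain ⟨v, hv, h2⟩ := exists_eps (i := i) hM
  by_contra h3
  exact hv (h' v (h2.mono (by omega)))

theorem eps_congr {N : Type} [AddCommGroup N] [Module (KLRAlg D) N] (f : M ≃ₗ[KLRAlg D] N) :
    eps D i M = eps D i N := by
  unfold eps
  congr 1
  ext a
  constructor
  · rintro ⟨u, hu, h⟩
    exact ⟨f u, fun h1 => hu (f.injective (h1.trans (map_zero f).symm)),
      fun k hk => by rw [← map_smul, h k hk]⟩
  · rintro ⟨u, hu, h⟩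
    exact ⟨f.symm u, fun h1 => hu (f.symm.injective (h1.trans (map_zero f.symm).symm)),
      fun k hk => by rw [← map_smul, h k hk]⟩

end

/-! ### the module structure of `Kr` -/

section

variable {D : Datum K I} {i : I} {a n : ℕ} {M : Type} [AddCommGroup M] [Module (KLRAlg D) M]

/-- the inclusion `Kr → M` on elements -/
def Kr.val (u : Kr D i a M) : M := u.1

theorem Kr.val_isKr (u : Kr D i a M) : IsKr D i a (Kr.val u) := u.2

theorem Kr.val_smul (b : KLRAlg D) (u : Kr D i a M) : Kr.val (b • u) = D.shn a b • Kr.val u := rfl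
theorem Kr.val_add (u v : Kr D i a M) : Kr.val (u + v) = Kr.val u + Kr.val v := rfl
theorem Kr.val_zero : Kr.val (0 : Kr D i a M) = 0 := rfl

theorem Kr.val_injective : Function.Injective (Kr.val : Kr D i a M → M) :=
  fun _ _ h => Subtype.ext h

/-- element of `Kr` -/
def Kr.of (u : M) (hu : IsKr D i a u) : Kr D i a M := ⟨u, hu⟩

theorem Kr.val_of (u : M) (hu : IsKr D i a u) : Kr.val (Kr.of u hu) = u := rfl

theorem Kr.isStrand (hM : IsStrand D n M) : IsStrand D (n - a) (Kr D i a M) where
  one k hk u := by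
    apply Kr.val_injective
    rw [Kr.val_smul, D.shn_E, hM.one (a + k) (by omega)]
  zero k hk j u := by
    apply Kr.val_injective
    rw [Kr.val_smul, D.shn_e, hM.zero (a + k) (by omega), Kr.val_zero]

theorem Kr.nilp (hM : Nilp D M) : Nilp D (Kr D i a M) := by
  intro k
  obtain ⟨N, hN⟩ := hM (a + k)
  refine ⟨N, fun u => ?_⟩
  apply Kr.val_injective
  rw [Kr.val_smul, map_pow, D.shn_x, hN, Kr.val_zero]

variable [Module K M] [IsScalarTower K (KLRAlg D) M]

/-- the inclusion `Kr → M` as a linear map -/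
def Kr.valₗ (D : Datum K I) (i : I) (a : ℕ) (M : Type) [AddCommGroup M] [Module (KLRAlg D) M]
    [Module K M] [IsScalarTower K (KLRAlg D) M] : Kr D i a M →ₗ[K] M where
  toFun := Kr.val
  map_add' := Kr.val_add
  map_smul' _ _ := rfl

theorem Kr.valₗ_apply (u : Kr D i a M) : Kr.valₗ D i a M u = Kr.val u := rfl

theorem Kr.fd [FiniteDimensional K M] : FiniteDimensional K (Kr D i a M) :=
  FiniteDimensional.of_injective (Kr.valₗ D i a M) Kr.val_injective

theorem Kr.fdMod (hM : FdMod D n M) : FdMod D (n - a) (Kr D i a M) where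
  strand := Kr.isStrand hM.strand
  fd := by
    have := hM.fd
    exact Kr.fd
  nilp := Kr.nilp hM.nilp

end

end Pool.Agent.KLR
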