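import Pool.Agent.Work.MP_e487d8_al.Cry.Ind
import Pool.Agent.Work.MP_e487d8_al.Fin.Wt

/-! MP_e487d8_al, block CRY: simple modules: `Kr i (ε_i M) M` is simple, `M` is the only simple
quotient of `L(i^a) ∘ Kr i a M`, the endomorphisms of a simple module are scalars. -/

set_option autoImplicit false

open scoped TensorProduct
open Pool.Agent.E487.Hopf

namespace Pool.Agent.KLR

variable {K I : Type} [Field K] [Fintype I] [DecidableEq I]

section

variable {D : Datum K I} {i : I} {a n : ℕ} {X P H H' Z : Type}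
  [AddCommGroup X] [Module K X] [Module (KLRAlg D) X] [IsScalarTower K (KLRAlg D) X]
  [AddCommGroup P] [Module K P] [Module (KLRAlg D) P] [IsScalarTower K (KLRAlg D) P]
  [AddCommGroup H] [Module K H] [Module (KLRAlg D) H] [IsScalarTower K (KLRAlg D) H]
  [AddCommGroup H'] [Module K H'] [Module (KLRAlg D) H'] [IsScalarTower K (KLRAlg D) H']
  [AddCommGroup Z] [Module K Z] [Module (KLRAlg D) Z] [IsScalarTower K (KLRAlg D) Z]

/-- a submodule of `P_a X` with a nonzero vector in `e(i^a)` is everything -/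
theorem IsInd.eq_top {j : X →ₗ[K] P} (h : IsInd D i a n X P j) [IsSimpleModule (KLRAlg D) X]
    (U : Submodule (KLRAlg D) P) {u : P} (hu : u ∈ U) (hu0 : u ≠ 0) (he : IsEw D i a u) :
    U = ⊤ := by
  obtain ⟨c, h1, h2, -⟩ := exists_isKr h.fdm.nilp hu0 he
  obtain ⟨x, hx⟩ := h.ker _ h2
  let V : Submodule (KLRAlg D) X :=
    { carrier := {x | j x ∈ U}
      zero_mem' := by
        change j 0 ∈ U
        rw [map_zero]; exact U.zero_mem
      add_mem' := by
        intro x y hx hy
        change j (x + y) ∈ U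
        rw [map_add]; exact U.add_mem hx hy
      smul_mem' := by
        intro b x hx
        change j (b • x) ∈ U
        rw [← h.bal]; exact U.smul_mem _ hx }
  have hV : V = ⊤ := by
    rcases eq_bot_or_eq_top V with h3 | h3
    · exfalso
      have h4 : x ∈ V := by
        change j x ∈ U
        rw [hx]
        exact U.smul_mem c hu
      rw [h3, Submodule.mem_bot] at h4
      rw [h4, map_zero] at hx
      exact h1 hx.symm
    · exact h3
  rw [eq_top_iff, ← h.gen, Submodule.span_le]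
  rintro _ ⟨y, rfl⟩
  have h5 : y ∈ V := by rw [hV]; trivial
  exact h5

/-- `e(i^(a+1)) P_a X = 0` -/
theorem IsInd.ew_succ {j : X →ₗ[K] P} (h : IsInd D i a n X P j)
    (h0 : ∀ x : X, IsKr D i 1 x → x = 0) {u : P} (he : IsEw D i (a + 1) u) : u = 0 := by
  by_contra hu
  obtain ⟨c, h1, h2, -⟩ := exists_isKr h.fdm.nilp hu he
  obtain ⟨x, hx⟩ := h.ker _ (h2.mono (by omega))
  apply h1
  rw [← hx]
  have h3 := h2 a (by omega)
  rw [← hx] at h3
  have h4 : IsKr D i 1 x := by
    intro k hk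
    have hk' : k = 0 := by omega
    subst hk'
    constructor
    · apply h.inj
      rw [← h.bal, D.shn_e]
      exact h3.1
    · apply h.inj
      rw [← h.bal, D.shn_x, map_zero]
      exact h3.2
  rw [h0 x h4, map_zero]

/-- the data of a module generated by a copy of `X` in `Kr i a` -/
structure IsGen (D : Datum K I) (i : I) (a : ℕ) (X Z : Type) [AddCommGroup X] [Module K X]
    [Module (KLRAlg D) X] [AddCommGroup Z] [Module K Z] [Module (KLRAlg D) Z]
    (f : X →ₗ[K] Z) : Prop where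
  bal : ∀ (b : KLRAlg D) (x : X), D.shn a b • f x = f (b • x)
  kr : ∀ x, IsKr D i a (f x)
  gen : Submodule.span (KLRAlg D) (Set.range f) = ⊤

theorem IsInd.isGen {j : X →ₗ[K] P} (h : IsInd D i a n X P j) : IsGen D i a X P j :=
  ⟨h.bal, h.kr, h.gen⟩

theorem IsGen.comp {f : X →ₗ[K] Z} (h : IsGen D i a X Z f) (q : Z →ₗ[KLRAlg D] H)
    (hq : Function.Surjective q) : IsGen D i a X H ((Conv.toK q).comp f) where
  bal b x := by
    rw [LinearMap.comp_apply, LinearMap.comp_apply, Conv.toK_apply, Conv.toK_apply, ← map_smul,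
      h.bal]
  kr x := (h.kr x).map q
  gen := by
    have h1 : Set.range ((Conv.toK q).comp f) = q '' Set.range f := by
      ext z
      constructor
      · rintro ⟨x, rfl⟩
        exact ⟨f x, ⟨x, rfl⟩, rfl⟩
      · rintro ⟨_, ⟨x, rfl⟩, rfl⟩
        exact ⟨x, rfl⟩
    rw [h1, ← Submodule.map_span, h.gen, Submodule.map_top, LinearMap.range_eq_top]
    exact hq

/-- the surjection from `P_a X` -/
theorem IsInd.exists_surj {j : X →ₗ[K] P} (h : IsInd D i a n X P j) {f : X →ₗ[K] Z}
    (hf : IsGen D i a X Z f) :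
    ∃ g : P →ₗ[KLRAlg D] Z, Function.Surjective g ∧ ∀ x, g (j x) = f x := by
  obtain ⟨g, hg⟩ := h.univ Z f hf.bal hf.kr
  refine ⟨g, ?_, hg⟩
  rw [← LinearMap.range_eq_top, eq_top_iff, ← hf.gen, Submodule.span_le]
  rintro _ ⟨x, rfl⟩
  exact ⟨j x, hg x⟩

/-- a proper quotient map of `P_a X` is injective on `e(i^a)` -/
theorem IsInd.inj_ew {j : X →ₗ[K] P} (h : IsInd D i a n X P j) [IsSimpleModule (KLRAlg D) X]
    [Nontrivial H] (g : P →ₗ[KLRAlg D] H) (hg : Function.Surjective g) {u : P}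
    (hu : IsEw D i a u) (h0 : g u = 0) : u = 0 := by
  by_contra h1
  have h2 := h.eq_top (LinearMap.ker g) (LinearMap.mem_ker.2 h0) h1 hu
  obtain ⟨v, hv⟩ := exists_ne (0 : H)
  obtain ⟨w, rfl⟩ := hg v
  apply hv
  rw [← LinearMap.mem_ker, h2]
  trivial

/-- `Kr i a H = X` for a nonzero quotient `H` of `P_a X` -/
theorem IsInd.ker_quot {j : X →ₗ[K] P} (h : IsInd D i a n X P j) [IsSimpleModule (KLRAlg D) X]
    [Nontrivial H] (g : P →ₗ[KLRAlg D] H) (hg : Function.Surjective g) (u : H)
    (hu : IsKr D i a u) : ∃ x, g (j x) = u := by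
  obtain ⟨p, rfl⟩ := hg u
  have h1 : g (ew D i a • p) = g p := by
    rw [map_smul, hu.isEw.ew_smul]
  have h2 : IsKr D i a (ew D i a • p) := by
    intro k hk
    refine ⟨isEw_ew p k hk, ?_⟩
    apply h.inj_ew g hg ((isEw_ew p).x_smul k)
    rw [map_smul, h1, (hu k hk).2]
  obtain ⟨x, hx⟩ := h.ker _ h2
  exact ⟨x, by rw [hx, h1]⟩

theorem IsInd.ew_succ_quot {j : X →ₗ[K] P} (h : IsInd D i a n X P j)
    (h0 : ∀ x : X, IsKr D i 1 x → x = 0) (g : P →ₗ[KLRAlg D] H) (hg : Function.Surjective g)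
    {u : H} (hu : IsEw D i (a + 1) u) : u = 0 := by
  obtain ⟨p, rfl⟩ := hg u
  have h1 : g (ew D i (a + 1) • p) = g p := by
    rw [map_smul, hu.ew_smul]
  rw [← h1, h.ew_succ h0 (isEw_ew p), map_zero]

/-- the linear equivalence `X ≃ Kr i a H` for a nonzero quotient `H` of `P_a X` -/
theorem IsInd.equiv_Kr {j : X →ₗ[K] P} (h : IsInd D i a n X P j) [IsSimpleModule (KLRAlg D) X]
    [Nontrivial H] (g : P →ₗ[KLRAlg D] H) (hg : Function.Surjective g) :
    Nonempty (X ≃ₗ[KLRAlg D] Kr D i a H) := by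
  let f : X →ₗ[KLRAlg D] Kr D i a H :=
    { toFun := fun x => Kr.of (g (j x)) ((h.kr x).map g)
      map_add' := fun x y => by
        apply Kr.val_injective
        rw [Kr.val_add, Kr.val_of, Kr.val_of, Kr.val_of, map_add, map_add]
      map_smul' := fun b x => by
        apply Kr.val_injective
        rw [RingHom.id_apply, Kr.val_smul, Kr.val_of, Kr.val_of, ← h.bal, map_smul] }
  refine ⟨LinearEquiv.ofBijective f ⟨?_, ?_⟩⟩
  · rw [← LinearMap.ker_eq_bot, LinearMap.ker_eq_bot']
    intro x hx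
    have h1 : g (j x) = 0 := congrArg Kr.val hx
    apply h.inj
    rw [h.inj_ew g hg (h.kr x).isEw h1, map_zero]
  · intro u
    obtain ⟨x, hx⟩ := h.ker_quot g hg (Kr.val u) (Kr.val_isKr u)
    exact ⟨x, Kr.val_injective hx⟩

/-- `P_a X` has only one simple quotient -/
theorem IsInd.iso_of_simple {j : X →ₗ[K] P} (h : IsInd D i a n X P j)
    [IsSimpleModule (KLRAlg D) X] [IsSimpleModule (KLRAlg D) H] [IsSimpleModule (KLRAlg D) H']
    (g : P →ₗ[KLRAlg D] H) (hg : Function.Surjective g) (g' : P →ₗ[KLRAlg D] H')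
    (hg' : Function.Surjective g') : Nonempty (H ≃ₗ[KLRAlg D] H') := by
  have : Nontrivial H := IsSimpleModule.nontrivial (KLRAlg D) H
  have : Nontrivial H' := IsSimpleModule.nontrivial (KLRAlg D) H'
  have hX : Nontrivial X := IsSimpleModule.nontrivial (KLRAlg D) X
  have h1 : LinearMap.ker g = LinearMap.ker g' := by
    have hc : IsCoatom (LinearMap.ker g) := by
      rw [← isSimpleModule_iff_isCoatom]
      exact IsSimpleModule.congr (g.quotKerEquivOfSurjective hg)
    have hc' : IsCoatom (LinearMap.ker g') := by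
      rw [← isSimpleModule_iff_isCoatom]
      exact IsSimpleModule.congr (g'.quotKerEquivOfSurjective hg')
    by_contra hne
    have h2 := hc.sup_eq_top_of_ne hc' hne
    obtain ⟨x, hx⟩ := exists_ne (0 : X)
    have h3 : j x ∈ LinearMap.ker g ⊔ LinearMap.ker g' := by rw [h2]; trivial
    obtain ⟨u, hu, v, hv, huv⟩ := Submodule.mem_sup.1 h3
    have h4 : ew D i a • u = 0 := by
      apply h.inj_ew g hg (isEw_ew u)
      rw [map_smul, LinearMap.mem_ker.1 hu, smul_zero]
    have h5 : ew D i a • v = 0 := by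
      apply h.inj_ew g' hg' (isEw_ew v)
      rw [map_smul, LinearMap.mem_ker.1 hv, smul_zero]
    have h6 : j x = 0 := by
      rw [← (h.kr x).isEw.ew_smul, ← huv, smul_add, h4, h5, add_zero]
    exact hx (h.inj (h6.trans (map_zero j).symm))
  exact ⟨((g.quotKerEquivOfSurjective hg).symm.trans (Submodule.quotEquivOfEq _ _ h1)).trans
    (g'.quotKerEquivOfSurjective hg')⟩

end

end Pool.Agent.KLR
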