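import Pool.Agent.Work.MP_e487d8_al.Cry.Facts

/-! MP_e487d8_al, block CRY: every simple module with `n + 1` strands is the quotient of
`L(i) ∘ L₁`, `L₁` simple, by the unique maximal submodule. -/

set_option autoImplicit false

open scoped TensorProduct

namespace Pool.Agent.KLR

variable {K I : Type} [Field K] [Fintype I] [DecidableEq I] {D : Datum K I}

theorem exists_lt_quo (hb : S_basis D) {n : ℕ} (X : SMod D) (hn : X.n = n + 1) :
    ∃ (i : I) (Y : SMod D), Y.n = n ∧ ∃ g : Conv D 1 (Lt D i) Y.M →ₗ[KLRAlg D] X.M,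
      Function.Surjective g ∧
      ∀ U : Submodule (KLRAlg D) (Conv D 1 (Lt D i) Y.M), U ≠ ⊤ → U ≤ LinearMap.ker g := by
  have hX := X.smp
  rw [hn] at hX
  obtain ⟨i, hi⟩ := exists_eps_pos hX.strand
  have hle := eps_le (i := i) hX.strand
  have hs := Kr.simple hb hX i
  have hfd : FdMod D (n + 1 - eps D i X.M) (Kr D i (eps D i X.M) X.M) := Kr.fdMod hX.toFdMod
  have hno := Kr.noKr (i := i) hX.strand (le_refl (eps D i X.M))
  have hgen := Kr.isGen hX i
  generalize eps D i X.M = a at *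
  obtain ⟨b, rfl⟩ : ∃ b, a = 1 + b := ⟨a - 1, by omega⟩
  obtain ⟨L, v, hL⟩ := exists_isLp hb i b
  have h1 := hL.ind _ (Kr D i (1 + b) X.M) hfd hno
  have h2 := h1.step hb
  obtain ⟨g, hg, -⟩ := h2.exists_surj hgen
  have hne : Nontrivial (Kr D i (1 + b) X.M) := IsSimpleModule.nontrivial (KLRAlg D) _
  have hP : Nontrivial (Conv D L.n L.M (Kr D i (1 + b) X.M)) := h1.inj.nontrivial
  obtain ⟨Y, hYn, q, hq⟩ := Sm.exists_quo h1.fdm
  refine ⟨i, Y, by rw [hYn]; omega, ?_⟩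
  have hQ : Function.Surjective (Conv.map (rfl : 1 = 1) (LinearMap.id : Lt D i →ₗ[KLRAlg D] Lt D i)
    q) := Conv.map_surjective rfl _ _ Function.surjective_id hq
  have hZ : FdMod D (1 + Y.n) (Conv D 1 (Lt D i) Y.M) :=
    Conv.fdMod hb (Lt.smp D i).toFdMod Y.smp.toFdMod
  have hZn : Nontrivial (Conv D 1 (Lt D i) Y.M) :=
    (lk_injective (i := i) hb Y.smp.strand).nontrivial
  obtain ⟨H, -, r, hr⟩ := Sm.exists_quo hZ
  obtain ⟨f⟩ := h2.iso_of_simple (r.comp (Conv.map rfl LinearMap.id q)) (hr.comp hQ) g hg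
  refine ⟨f.toLinearMap.comp r, f.surjective.comp hr, fun U hU => ?_⟩
  exact h2.le_ker' _ hQ (f.toLinearMap.comp r) (f.surjective.comp hr) U hU

end Pool.Agent.KLR
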